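import Pool.Agent.H705.GB.Stm
import Pool.Graph.R_seed8.Helper601.Mertens

/-! # Project GB (helper705), package NT3 (helper142): upper bound for the probability that a
number is rough -/

set_option autoImplicit false

namespace Pool.Agent.H142.GB

open Pool.Agent.H705.GB Finset
open Pool.Agent.H705.TR (PrimeIn Model un)

theorem un_mono' {M : ℕ} {P Q : ℕ → Prop} (h : ∀ y, P y → Q y) : un M P ≤ un M Q := by
  classical
  unfold un
  refine div_le_div_of_nonneg_right (Nat.cast_le.2 (card_le_card fun y hy => ?_))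
    (Nat.cast_nonneg _)
  rw [mem_filter] at hy ⊢
  exact ⟨hy.1, h y hy.2⟩

theorem T_NT3 (hPRD : P_PRD) : P_NT3 := by
  obtain ⟨C, hC⟩ := Pool.Agent.Helper601.Mertens.mertens_inv
  have hC0 : 0 ≤ C := (abs_nonneg _).trans (hC 3 le_rfl)
  refine ⟨Real.exp (C + 1 / 2), Real.exp_pos _, fun z m k hz hzm hk => ?_⟩
  obtain ⟨S, hS⟩ : ∃ S : Finset ℕ, S = ((Icc 1 z).filter Nat.Prime).erase 2 := ⟨_, rfl⟩
  have hSp : ∀ l ∈ S, l.Prime ∧ l ≠ 2 ∧ l ≤ z := by
    intro l hl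
    rw [hS, mem_erase, mem_filter, mem_Icc] at hl
    exact ⟨hl.2.2, hl.1, hl.2.1.2⟩
  have hzz : z ≤ z ^ 2 := by nlinarith
  have h1 : un k (fun y => r z m (2 * y + 1)) ≤ un k (fun y => ∀ l ∈ S, ¬ l ∣ 2 * y + 1) := by
    refine un_mono' fun y hy l hl => ?_
    obtain ⟨h1, _, h3⟩ := hSp l hl
    exact hy l h1 h3 ((Nat.pow_le_pow_left h3 2).trans hzm)
  rw [hPRD k S hk.1 fun l hl => ⟨(hSp l hl).1, (hSp l hl).2.1,
    hk.2 l (hSp l hl).1.one_lt.le ((hSp l hl).2.2.trans (hzz.trans hzm))⟩] at h1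
  have h2 : ∏ l ∈ S, (1 - 1 / (l : ℝ)) ≤ Real.exp (-∑ l ∈ S, 1 / (l : ℝ)) := by
    rw [← sum_neg_distrib, Real.exp_sum]
    apply prod_le_prod
    · intro l hl
      have h3 : (1 : ℝ) ≤ l := by exact_mod_cast (hSp l hl).1.one_lt.le
      have h4 : 1 / (l : ℝ) ≤ 1 := by rwa [div_le_one (by linarith)]
      linarith
    · intro l _
      have := Real.add_one_le_exp (-(1 / (l : ℝ)))
      linarith
  refine h1.trans (h2.trans ?_)
  have hlz : 0 < Real.log z := Real.log_pos (by exact_mod_cast (by omega : 1 < z))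
  rcases Nat.eq_or_lt_of_le hz with h | h
  · -- z = 2
    subst h
    have h3 : Real.exp (-∑ l ∈ S, 1 / (l : ℝ)) ≤ 1 := by
      rw [Real.exp_le_one_iff]
      have : 0 ≤ ∑ l ∈ S, 1 / (l : ℝ) := sum_nonneg fun l _ => by positivity
      linarith
    refine h3.trans ?_
    rw [le_div_iff₀ hlz]
    have h4 := Real.log_two_lt_d9
    have h5 : 1 ≤ Real.exp (C + 1 / 2) := Real.one_le_exp (by linarith)
    push_cast
    linarith
  · have h3 := hC z (by omega)
    have h4 : ∑ p ∈ (Icc 1 z).filter Nat.Prime, (1 : ℝ) / p = 1 / 2 + ∑ l ∈ S, 1 / (l : ℝ) := by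
      have h5 : 2 ∈ (Icc 1 z).filter Nat.Prime :=
        mem_filter.2 ⟨mem_Icc.2 ⟨by omega, hz⟩, Nat.prime_two⟩
      rw [hS, ← add_sum_erase _ _ h5]
      push_cast
      rfl
    rw [h4] at h3
    have h5 := (abs_le.1 h3).1
    have h6 : -∑ l ∈ S, 1 / (l : ℝ) ≤ (C + 1 / 2) - Real.log (Real.log z) := by linarith
    refine (Real.exp_le_exp.2 h6).trans (le_of_eq ?_)
    rw [Real.exp_sub, Real.exp_log hlz]

end Pool.Agent.H142.GB
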