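import Pool.Agent.H705.GB.Stm

/-! # Project GB (helper705), package RUN (helper142) -/

set_option autoImplicit false

namespace Pool.Agent.H142.GB

open Pool.Agent.H705.GB

theorem G_pos (N c n y y' : ℕ) (hn : 1 ≤ n) : 1 ≤ G N c n y y' := by
  unfold G
  split_ifs with h h1 h2
  · exact le_rfl
  · exact Nat.gcd_pos_of_pos_right _ (by omega)
  · exact le_rfl
  · exact Nat.gcd_pos_of_pos_right _ (by omega)

theorem fl_le (x : ℕ → ℕ) {N n c : ℕ} (h : c ≤ n) : fl x N n c = n := by
  rw [fl, dif_pos h]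

theorem fl_gt (x : ℕ → ℕ) {N n c : ℕ} (h : n < c) :
    fl x N n c =
      fl x N (n + 1) (c - n - max 1 (G N c n (x c) (x (2 * N - c))) + (n + 1)) := by
  rw [fl, dif_neg (by omega)]

theorem run_aux (x : ℕ → ℕ) (N : ℕ) : ∀ m n : ℕ, 1 ≤ n → aseq x N n = m →
    ∃ k, n ≤ k ∧ aseq x N k = 0 ∧ (∀ j, n ≤ j → j < k → aseq x N j ≠ 0) ∧
      fl x N (n + 1) (aseq x N n + (n + 1)) = k + 1 := by
  intro m
  induction m using Nat.strong_induction_on with
  | _ m ih =>
    intro n hn hm
    rcases Nat.eq_zero_or_pos m with h0 | h0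
    · subst h0
      refine ⟨n, le_rfl, hm, fun j h1 h2 => by omega, ?_⟩
      rw [hm, zero_add]
      exact fl_le x le_rfl
    · obtain ⟨n', rfl⟩ : ∃ n', n = n' + 1 := ⟨n - 1, by omega⟩
      have hstep : aseq x N (n' + 2) = aseq x N (n' + 1) -
          G N (aseq x N (n' + 1) + (n' + 2)) (n' + 2) (x (aseq x N (n' + 1) + (n' + 2)))
            (x (2 * N - (aseq x N (n' + 1) + (n' + 2)))) := by
        rw [aseq]
      obtain ⟨g, hg⟩ : ∃ g, g = G N (aseq x N (n' + 1) + (n' + 2)) (n' + 2)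
          (x (aseq x N (n' + 1) + (n' + 2)))
          (x (2 * N - (aseq x N (n' + 1) + (n' + 2)))) := ⟨_, rfl⟩
      have hg1 : 1 ≤ g := by
        rw [hg]
        exact G_pos _ _ _ _ _ (by omega)
      rw [← hg, hm] at hstep
      obtain ⟨k, k1, k2, k3, k4⟩ := ih (m - g) (by omega) (n' + 2) (by omega) hstep
      refine ⟨k, by omega, k2, ?_, ?_⟩
      · intro j h1 h2
        rcases Nat.eq_or_lt_of_le h1 with h3 | h3
        · rw [← h3, hm]
          omega
        · exact k3 j (by omega) h2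
      · rw [fl_gt x (by omega : n' + 1 + 1 < aseq x N (n' + 1) + (n' + 1 + 1))]
        have e1 : aseq x N (n' + 1) + (n' + 1 + 1) = aseq x N (n' + 1) + (n' + 2) := by omega
        rw [e1]
        have e2 : n' + 1 + 1 = n' + 2 := by omega
        rw [e2, ← hg, max_eq_right hg1, hm]
        have e3 : m + (n' + 2) - (n' + 2) - g + (n' + 2 + 1) =
            aseq x N (n' + 2) + (n' + 2 + 1) := by
          rw [hstep]
          omega
        rw [e3]
        exact k4

theorem T_RUN : P_RUN := by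
  intro x N hN
  obtain ⟨k, k1, k2, k3, k4⟩ := run_aux x N (aseq x N 1) 1 le_rfl rfl
  have e1 : aseq x N 1 = N - 2 := by rw [aseq]
  have hk2 : 2 ≤ k := by
    rcases Nat.eq_or_lt_of_le k1 with h | h
    · rw [← h, e1] at k2
      omega
    · exact h
  have hl : IsLeast {n : ℕ | 2 ≤ n ∧ aseq x N n = 0} k := by
    refine ⟨⟨hk2, k2⟩, ?_⟩
    rintro j ⟨h1, h2⟩
    by_contra hcon
    push Not at hcon
    exact k3 j (by omega) hcon h2
  have hF : F x N = k := by
    unfold F
    exact hl.csInf_eq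
  rw [hF]
  refine ⟨hl, ?_⟩
  rw [← k4, e1]
  have e2 : N - 2 + (1 + 1) = N := by omega
  rw [e2]

end Pool.Agent.H142.GB
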