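import Pool.Agent.H705.GB.Stm

/-! # Project GB (helper705), package UP (helper142): if the first rough level is not free then
the level falls by more than `z` -/

set_option autoImplicit false

namespace Pool.Agent.H142.GB

open Pool.Agent.H705.GB
open Pool.Agent.H705.TR (PrimeIn)

theorem T_UP (hFLB : P_FLB) (hJMP : P_JMP) (hLNK : P_LNK) : P_UP := by
  intro z B N T H L K j n c x hG hOk hpar hz hL hR
  obtain ⟨n', c', hn1, hn', hc1, hcN, hNc, hfl, hRz, hNF⟩ :=
    hLNK z B N T H L _ K j n c x hG hOk hpar hR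
  obtain ⟨f1, f2, f3, f4⟩ := hFLB
  obtain ⟨hz1, hTB, hN⟩ := hG
  have hy : x c' % 2 = 1 := by rw [hpar, hc1]
  have hy' : x (2 * N - c') % 2 = 1 := by
    rw [hpar]
    omega
  obtain ⟨p, hp, hpd⟩ : ∃ p : ℕ, p.Prime ∧
      (p ^ 2 ≤ c' ∧ p ∣ x c' ∨ p ^ 2 ≤ 2 * N - c' ∧ p ∣ x (2 * N - c')) := by
    by_contra h
    push Not at h
    apply hNF
    refine ⟨fun p hp h1 h2 => ?_, fun p hp h1 h2 => ?_⟩
    · exact (h p hp).1 h1 h2
    · exact (h p hp).2 h1 h2
  have hp2 : p ≠ 2 := by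
    rintro rfl
    rcases hpd with ⟨-, h⟩ | ⟨-, h⟩
    · omega
    · omega
  obtain ⟨j1, j2, j3, j4, j5⟩ := hJMP N c' (x c') (x (2 * N - c')) n' p hn1 hp hp2 hpd
  unfold jp at j4 j5
  generalize jm N n' c' (x c') (x (2 * N - c')) = m at *
  have hps : p ≤ Nat.sqrt (2 * N) := by
    rw [Nat.le_sqrt]
    have : p * p = p ^ 2 := (sq p).symm
    rcases hpd with ⟨h, -⟩ | ⟨h, -⟩
    · omega
    · omega
  have e1 : fl x N n' c' = fl x N m c' := by
    have h := f4 x N n' c' (m - n') (by omega) (fun i hi => j3 (n' + i) (by omega) (by omega))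
    have h2 : n' + (m - n') = m := by omega
    rw [h2] at h
    exact h
  have e2 : fl x N m c' = fl x N (m + 1)
      (c' - m - max 1 (G N c' m (x c') (x (2 * N - c'))) + (m + 1)) := by
    rw [fl, dif_neg (by omega)]
  have h3 := (f1 x N (m + 1) (c' - m - max 1 (G N c' m (x c') (x (2 * N - c'))) + (m + 1))).2
  rw [← e2, ← e1, ← hfl] at h3
  generalize G N c' m (x c') (x (2 * N - c')) = g at *
  have h4 : max 1 g = g := max_eq_right (by omega)
  rw [h4] at h3
  have h5 : m + 1 ≤ c' - m - g + (m + 1) := by omega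
  rw [max_eq_right h5] at h3
  have hq : g.minFac.Prime := Nat.minFac_prime (by omega)
  have hqz : z < g.minFac := by
    by_contra hle
    push Not at hle
    have h6 : g.minFac ^ 2 ≤ z ^ 2 := Nat.pow_le_pow_left hle 2
    rcases j5 with ⟨-, h7, -⟩ | ⟨-, h7, -⟩
    · exact hRz.1 _ hq hle (by omega) ((Nat.minFac_dvd _).trans h7)
    · exact hRz.2 _ hq hle (by omega) ((Nat.minFac_dvd _).trans h7)
  have hqg : g.minFac ≤ g := Nat.minFac_le (by omega)
  omega

end Pool.Agent.H142.GB
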